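import Mathlib
import Pool.Agent.H13.LintDefs
import Pool.Agent.H13.LintAsym

/-! # The order of growth of van Lint's function: `λ(n) = Θ(√(n log n))` -/

namespace Pool.Agent.Results.MP_7e7d68_co.Growth

open Filter Pool.Agent.H13.Lint

/-- `λ(n)` has order of growth `√(n log n)`; explicitly
`(1/8) √(n log n) ≤ λ(n) ≤ 5 √(n log n)` for all sufficiently large `n`. -/
theorem result :
    (∀ᶠ n : ℕ in atTop,
      (1 / 8 : ℝ) * Real.sqrt (n * Real.log n) ≤ (lam n : ℝ) ∧
      (lam n : ℝ) ≤ 5 * Real.sqrt (n * Real.log n)) ∧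
    (fun n : ℕ => (lam n : ℝ)) =Θ[atTop] (fun n : ℕ => Real.sqrt (n * Real.log n)) := by
  have h := lower_asym.and upper_asym
  refine ⟨h, ?_, ?_⟩
  · apply Asymptotics.IsBigO.of_bound 5
    filter_upwards [h] with n hn
    have h1 : (0 : ℝ) ≤ (lam n : ℝ) := Nat.cast_nonneg _
    rw [Real.norm_eq_abs, Real.norm_eq_abs, abs_of_nonneg h1,
      abs_of_nonneg (Real.sqrt_nonneg _)]
    exact hn.2
  · apply Asymptotics.IsBigO.of_bound 8
    filter_upwards [h] with n hn
    have h1 : (0 : ℝ) ≤ (lam n : ℝ) := Nat.cast_nonneg _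
    rw [Real.norm_eq_abs, Real.norm_eq_abs, abs_of_nonneg h1,
      abs_of_nonneg (Real.sqrt_nonneg _)]
    linarith [hn.1]

end Pool.Agent.Results.MP_7e7d68_co.Growth
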